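import Pool.Agent.helper40.SU.SpecA

set_option autoImplicit false

namespace Pool.Agent.SU

open Finset

lemma CR2_one (r₁ r₂ : ℕ) (h1 : 1 ≤ r₁) (h2 : 1 ≤ r₂) (co : r₁.Coprime r₂) (H : ℕ → ℕ → ℤ) :
    ∑ x ∈ range (r₁ * r₂), H (x % r₁) (x % r₂) = ∑ a ∈ range r₁, ∑ b ∈ range r₂, H a b := by
  rw [← Finset.sum_product' (range r₁) (range r₂) H]
  refine Finset.sum_bij (fun x _ => (x % r₁, x % r₂)) ?_ ?_ ?_ ?_
  · intro x _
    exact Finset.mem_product.mpr ⟨Finset.mem_range.mpr (Nat.mod_lt _ h1),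
      Finset.mem_range.mpr (Nat.mod_lt _ h2)⟩
  · intro x hx y hy hxy
    have e1 : x ≡ y [MOD r₁] := (Prod.ext_iff.mp hxy).1
    have e2 : x ≡ y [MOD r₂] := (Prod.ext_iff.mp hxy).2
    have e3 : x ≡ y [MOD r₁ * r₂] := (Nat.modEq_and_modEq_iff_modEq_mul co).mp ⟨e1, e2⟩
    have e4 : x % (r₁ * r₂) = y % (r₁ * r₂) := e3
    rwa [Nat.mod_eq_of_lt (Finset.mem_range.mp hx), Nat.mod_eq_of_lt (Finset.mem_range.mp hy)] at e4
  · rintro ⟨a, b⟩ hab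
    obtain ⟨ha, hb⟩ := Finset.mem_product.mp hab
    have ha' : a < r₁ := Finset.mem_range.mp ha
    have hb' : b < r₂ := Finset.mem_range.mp hb
    obtain ⟨x, hx1, hx2⟩ := Nat.chineseRemainder co a b
    have hpos : 0 < r₁ * r₂ := Nat.mul_pos h1 h2
    refine ⟨x % (r₁ * r₂), Finset.mem_range.mpr (Nat.mod_lt _ hpos), ?_⟩
    have e1 : x % (r₁ * r₂) % r₁ = a := by
      rw [Nat.mod_mul_right_mod]
      have : x % r₁ = a % r₁ := hx1
      rw [this, Nat.mod_eq_of_lt ha']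
    have e2 : x % (r₁ * r₂) % r₂ = b := by
      rw [Nat.mod_mul_left_mod]
      have : x % r₂ = b % r₂ := hx2
      rw [this, Nat.mod_eq_of_lt hb']
    exact Prod.ext e1 e2
  · intro x _; rfl

theorem CR2 : CR2_stmt := by
  intro r₁ r₂ f₁ f₂ h1 h2 co p1 p2
  have e : ∀ x y, f₁ x y * f₂ x y = f₁ (x % r₁) (y % r₁) * f₂ (x % r₂) (y % r₂) := by
    intro x y
    rw [p1 x y (x % r₁) (y % r₁) (Nat.mod_modEq x r₁).symm (Nat.mod_modEq y r₁).symm,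
      p2 x y (x % r₂) (y % r₂) (Nat.mod_modEq x r₂).symm (Nat.mod_modEq y r₂).symm]
  calc ∑ x ∈ range (r₁ * r₂), ∑ y ∈ range (r₁ * r₂), f₁ x y * f₂ x y
      = ∑ x ∈ range (r₁ * r₂), ∑ c ∈ range r₁, ∑ d ∈ range r₂,
          f₁ (x % r₁) c * f₂ (x % r₂) d := by
        refine Finset.sum_congr rfl fun x _ => ?_
        rw [← CR2_one r₁ r₂ h1 h2 co (fun c d => f₁ (x % r₁) c * f₂ (x % r₂) d)]
        exact Finset.sum_congr rfl fun y _ => e x y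
    _ = ∑ a ∈ range r₁, ∑ b ∈ range r₂, ∑ c ∈ range r₁, ∑ d ∈ range r₂, f₁ a c * f₂ b d :=
        CR2_one r₁ r₂ h1 h2 co (fun a b => ∑ c ∈ range r₁, ∑ d ∈ range r₂, f₁ a c * f₂ b d)
    _ = (∑ x ∈ range r₁, ∑ y ∈ range r₁, f₁ x y) * (∑ x ∈ range r₂, ∑ y ∈ range r₂, f₂ x y) := by
        rw [Finset.sum_mul_sum]
        refine Finset.sum_congr rfl fun a _ => Finset.sum_congr rfl fun b _ => ?_
        rw [Finset.sum_mul_sum]

end Pool.Agent.SU
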