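import Pool.Agent.helper40.SU.SpecA

set_option autoImplicit false

namespace Pool.Agent.SU

open Finset

theorem FAM (hDLS : DLS_stmt) (hDCO : DCO_stmt) (hRTD : RTD_stmt) (hLIN : LIN_stmt)
    (hFMC : FMC_stmt) : FAM_stmt := by
  obtain ⟨Z1, hdls⟩ := hDLS
  obtain ⟨Z2, hfmc⟩ := hFMC
  refine ⟨max (max Z1 Z2) 7, ?_⟩
  intro Z hZ m q u₀ k₀ hD
  have hZ1 : Z1 ≤ Z := le_trans (le_trans (le_max_left _ _) (le_max_left _ _)) hZ
  have hZ2 : Z2 ≤ Z := le_trans (le_trans (le_max_right _ _) (le_max_left _ _)) hZ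
  have hZ7 : 7 ≤ Z := le_trans (le_max_right _ _) hZ
  obtain ⟨K1, hK1⟩ := hfmc Z hZ2 m q u₀ k₀ hD
  refine ⟨max K1 1, ?_⟩
  intro K hK
  have hKK1 : K1 ≤ K := le_trans (le_max_left _ _) hK
  have hK1' : 1 ≤ K := le_trans (le_max_right _ _) hK
  obtain ⟨S, hS, hc⟩ := hK1 K hKK1
  obtain ⟨hcard, hbx⟩ := hDCO Z m q u₀ k₀ K hD hK1'
  have hPB : Px q u₀ k₀ K ⊆ Bx q u₀ k₀ K := Finset.filter_subset _ _
  have hmem : ∀ D ∈ S, ∃ x ∈ Px q u₀ k₀ K, Squarefree (Df m x.1 x.2) ∧ Df m x.1 x.2 = D := by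
    intro D hDS
    obtain ⟨x, hx, hxD⟩ := Finset.mem_image.mp (hS hDS)
    obtain ⟨hx1, hx2⟩ := Finset.mem_filter.mp hx
    exact ⟨x, hx1, hx2, hxD⟩
  have hSB : S ⊆ (Bx q u₀ k₀ K).image (fun x => Df m x.1 x.2) := by
    intro D hDS
    obtain ⟨x, hx, -, hxD⟩ := hmem D hDS
    exact Finset.mem_image.mpr ⟨x, hPB hx, hxD⟩
  refine ⟨S, ⟨hc, ?_, ?_, ?_, ?_, ?_, ?_, ?_⟩, ?_⟩
  · calc S.card ≤ ((Bx q u₀ k₀ K).image (fun x => Df m x.1 x.2)).card := Finset.card_le_card hSB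
      _ ≤ (Bx q u₀ k₀ K).card := Finset.card_image_le
      _ = K ^ 2 := hcard
  · intro D hDS
    obtain ⟨x, -, hsq, hxD⟩ := hmem D hDS
    rw [← hxD]; exact hsq
  · intro D hDS
    obtain ⟨x, hx, -, hxD⟩ := hmem D hDS
    rw [← hxD]; exact (hbx x (hPB hx)).1
  · intro D hDS
    obtain ⟨x, hx, -, hxD⟩ := hmem D hDS
    rw [← hxD]; exact (hbx x (hPB hx)).2.2.2.2.2.2.2.1
  · intro D hDS
    obtain ⟨x, hx, -, hxD⟩ := hmem D hDS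
    rw [← hxD]; exact (hbx x (hPB hx)).2.2.2.2.2.2.2.2
  · intro d hd hdq
    have hd1 : 1 ≤ d := Nat.one_le_iff_ne_zero.mpr hd.ne_zero
    have h1 : (S.filter (fun D => d ∣ D)).card ≤
        ((Px q u₀ k₀ K).filter (fun x => d ∣ Df m x.1 x.2)).card := by
      refine le_trans (Finset.card_le_card ?_)
        (Finset.card_image_le (f := fun x : ℕ × ℕ => Df m x.1 x.2))
      intro D hDS
      obtain ⟨hD1, hD2⟩ := Finset.mem_filter.mp hDS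
      obtain ⟨x, hx, -, hxD⟩ := hmem D hD1
      refine Finset.mem_image.mpr ⟨x, Finset.mem_filter.mpr ⟨hx, ?_⟩, hxD⟩
      rw [hxD]; exact hD2
    have h2 := hLIN Z m q u₀ k₀ hZ7 hD K d hd1 hdq
    have h3 := hRTD Z m q u₀ k₀ hZ7 hD d hd hdq
    have h3' : (rt m d : ℝ) ≤ 4 ^ (om d) := by exact_mod_cast h3
    have h4 : (0 : ℝ) ≤ (K : ℝ) ^ 2 / d + K := by positivity
    calc ((S.filter (fun D => d ∣ D)).card : ℝ)
        ≤ (((Px q u₀ k₀ K).filter (fun x => d ∣ Df m x.1 x.2)).card : ℝ) := by exact_mod_cast h1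
      _ ≤ rt m d * ((K : ℝ) ^ 2 / d + K) := h2
      _ ≤ 4 ^ (om d) * ((K : ℝ) ^ 2 / d + K) := mul_le_mul_of_nonneg_right h3' h4
  · intro G c hG hGK
    exact hdls Z hZ1 m q u₀ k₀ hD K G hG hGK S hSB c
  · intro D hDS
    obtain ⟨x, -, -, hxD⟩ := hmem D hDS
    exact ⟨x.1, x.2, hxD.symm⟩

end Pool.Agent.SU
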